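import Pool.Agent.H568.GR.Stm

/-!
# GR-VDC (second prover): the iterated van der Corput inequality with periodic factors removed
-/

set_option autoImplicit false

namespace Pool.Agent.TH633.Vdc2

open Finset Pool.Agent.H568.GR

theorem shift_sum (F : ℤ → ℝ) (hF : ∀ n, |F n| ≤ 1) (A : ℤ) (N s : ℕ) :
    |∑ n ∈ range N, F (A + n) - ∑ n ∈ range N, F (A + n + s)| ≤ 2 * s := by
  have h1 := sum_range_add (fun n : ℕ => F (A + n)) N s
  have h2 := sum_range_add (fun n : ℕ => F (A + n)) s N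
  rw [Nat.add_comm s N] at h2
  have h3 : ∑ n ∈ range N, F (A + n + s) = ∑ n ∈ range N, F (A + ((s + n : ℕ) : ℤ)) :=
    sum_congr rfl fun n _ => by
      congr 1
      push_cast
      ring
  have hb : ∀ f : ℕ → ℤ, |∑ n ∈ range s, F (f n)| ≤ s := by
    intro f
    refine (abs_sum_le_sum_abs _ _).trans ?_
    refine (sum_le_card_nsmul _ _ (1 : ℝ) fun n _ => hF _).trans ?_
    simp
  have h4 := hb (fun n => A + n)
  have h5 := hb (fun n => A + ((N + n : ℕ) : ℤ))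
  have h6 : ∑ n ∈ range N, F (A + n) - ∑ n ∈ range N, F (A + n + s) =
      ∑ n ∈ range s, F (A + n) - ∑ n ∈ range s, F (A + ((N + n : ℕ) : ℤ)) := by
    rw [h3]
    linarith
  rw [h6]
  have h7 := abs_sub (∑ n ∈ range s, F (A + n)) (∑ n ∈ range s, F (A + ((N + n : ℕ) : ℤ)))
  linarith

theorem step (Q N H : ℕ) (hN : 1 ≤ N) (hH : 1 ≤ H) (w G : ℤ → ℝ) (hw : ∀ n, |w n| ≤ 1)
    (hG : ∀ n, |G n| ≤ 1) (hper : ∀ n, w (n + Q) = w n) (A : ℤ) (δ : ℝ)
    (hδ : (Q : ℝ) * H ≤ δ * N) (hδ0 : 0 ≤ δ) (hδ1 : δ ≤ 1) :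
    (|∑ n ∈ range N, w (A + n) * G (A + n)| / N) ^ 2 ≤
      8 * δ + 2 * ((∑ h : Fin H, ∑ h' : Fin H,
        |∑ n ∈ range N, G (A + n + Q * ((h : ℕ) : ℤ)) * G (A + n + Q * ((h' : ℕ) : ℤ))| / N) /
          (H : ℝ) ^ 2) := by
  have hNR : (0 : ℝ) < N := by exact_mod_cast hN
  have hHR : (0 : ℝ) < H := by exact_mod_cast hH
  set S := ∑ n ∈ range N, w (A + n) * G (A + n) with hS
  set T := ∑ n ∈ range N, w (A + n) * ∑ h : Fin H, G (A + n + Q * ((h : ℕ) : ℤ)) with hT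
  have hperm : ∀ (m : ℕ) (n : ℤ), w (n + Q * (m : ℤ)) = w n := by
    intro m
    induction m with
    | zero => intro n; simp
    | succ m ih =>
      intro n
      have h := hper (n + Q * (m : ℤ))
      rw [ih] at h
      rw [← h]
      congr 1
      push_cast
      ring
  have h1 : |H * S - T| ≤ H * (2 * ((Q : ℝ) * H)) := by
    have e : H * S - T =
        ∑ h : Fin H, (S - ∑ n ∈ range N, w (A + n) * G (A + n + Q * ((h : ℕ) : ℤ))) := by
      rw [sum_sub_distrib, sum_const, card_univ, Fintype.card_fin, nsmul_eq_mul, hT]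
      congr 1
      rw [sum_comm]
      exact sum_congr rfl fun n _ => by rw [mul_sum]
    rw [e]
    refine (abs_sum_le_sum_abs _ _).trans ?_
    refine (sum_le_card_nsmul _ _ (2 * ((Q : ℝ) * H)) ?_).trans ?_
    · intro h _
      have h2 := shift_sum (fun n => w n * G n) (fun n => by
        rw [abs_mul]
        exact mul_le_one₀ (hw n) (abs_nonneg _) (hG n)) A N (Q * (h : ℕ))
      have h3 : ∑ n ∈ range N, w (A + n) * G (A + n + Q * ((h : ℕ) : ℤ)) =
          ∑ n ∈ range N, (fun n => w n * G n) (A + n + ((Q * (h : ℕ) : ℕ) : ℤ)) :=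
        sum_congr rfl fun n _ => by
          have := hperm (h : ℕ) (A + n)
          push_cast
          rw [this]
      rw [h3]
      refine h2.trans ?_
      push_cast
      have h4 : ((h : ℕ) : ℝ) ≤ H := by exact_mod_cast h.isLt.le
      have h5 : (0 : ℝ) ≤ Q := Nat.cast_nonneg Q
      nlinarith
    · simp
  have h2 : T ^ 2 ≤ N * ∑ h : Fin H, ∑ h' : Fin H,
      |∑ n ∈ range N, G (A + n + Q * ((h : ℕ) : ℤ)) * G (A + n + Q * ((h' : ℕ) : ℤ))| := by
    have h3 := sum_mul_sq_le_sq_mul_sq (range N) (fun n : ℕ => w (A + n))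
      (fun n : ℕ => ∑ h : Fin H, G (A + n + Q * ((h : ℕ) : ℤ)))
    rw [← hT] at h3
    have h4 : ∑ n ∈ range N, w (A + n) ^ 2 ≤ N := by
      refine (sum_le_card_nsmul _ _ (1 : ℝ) fun n _ => ?_).trans ?_
      · rw [← sq_abs]
        exact pow_le_one₀ (abs_nonneg _) (hw _)
      · simp
    have h5 : ∑ n ∈ range N, (∑ h : Fin H, G (A + n + Q * ((h : ℕ) : ℤ))) ^ 2 =
        ∑ h : Fin H, ∑ h' : Fin H,
          ∑ n ∈ range N, G (A + n + Q * ((h : ℕ) : ℤ)) * G (A + n + Q * ((h' : ℕ) : ℤ)) := by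
      have h6 : ∀ n ∈ range N, (∑ h : Fin H, G (A + n + Q * ((h : ℕ) : ℤ))) ^ 2 =
          ∑ h : Fin H, ∑ h' : Fin H,
            G (A + n + Q * ((h : ℕ) : ℤ)) * G (A + n + Q * ((h' : ℕ) : ℤ)) := by
        intro n _
        rw [sq, sum_mul_sum]
      rw [sum_congr rfl h6, sum_comm]
      refine sum_congr rfl fun h _ => ?_
      rw [sum_comm]
    have h7 : ∑ h : Fin H, ∑ h' : Fin H,
          ∑ n ∈ range N, G (A + n + Q * ((h : ℕ) : ℤ)) * G (A + n + Q * ((h' : ℕ) : ℤ)) ≤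
        ∑ h : Fin H, ∑ h' : Fin H,
          |∑ n ∈ range N, G (A + n + Q * ((h : ℕ) : ℤ)) * G (A + n + Q * ((h' : ℕ) : ℤ))| :=
      sum_le_sum fun h _ => sum_le_sum fun h' _ => le_abs_self _
    refine h3.trans ?_
    rw [h5]
    have h8 : (0 : ℝ) ≤ ∑ h : Fin H, ∑ h' : Fin H,
          ∑ n ∈ range N, G (A + n + Q * ((h : ℕ) : ℤ)) * G (A + n + Q * ((h' : ℕ) : ℤ)) := by
      rw [← h5]
      exact sum_nonneg fun _ _ => sq_nonneg _
    exact mul_le_mul h4 h7 h8 hNR.le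
  set V := ∑ h : Fin H, ∑ h' : Fin H,
      |∑ n ∈ range N, G (A + n + Q * ((h : ℕ) : ℤ)) * G (A + n + Q * ((h' : ℕ) : ℤ))| with hV
  have hV2 : ∑ h : Fin H, ∑ h' : Fin H,
        |∑ n ∈ range N, G (A + n + Q * ((h : ℕ) : ℤ)) * G (A + n + Q * ((h' : ℕ) : ℤ))| / (N : ℝ) =
      V / N := by
    rw [hV, sum_div]
    exact sum_congr rfl fun h _ => by rw [sum_div]
  rw [hV2]
  have h3 : |S| / N ≤ |T| / (H * N) + 2 * δ := by
    have h4 : |(H : ℝ) * S| ≤ |T| + H * (2 * ((Q : ℝ) * H)) := by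
      have := abs_sub_abs_le_abs_sub ((H : ℝ) * S) T
      linarith
    rw [abs_mul, abs_of_pos hHR] at h4
    have h5 : (H : ℝ) * |S| ≤ |T| + H * (2 * (δ * N)) := by
      have : (H : ℝ) * (2 * ((Q : ℝ) * H)) ≤ H * (2 * (δ * N)) :=
        mul_le_mul_of_nonneg_left (by linarith) hHR.le
      linarith
    rw [div_le_iff₀ hNR]
    have h6 : (|T| / (H * N) + 2 * δ) * N = (|T| + H * (2 * (δ * N))) / H := by
      field_simp
    rw [h6, le_div_iff₀ hHR]
    linarith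
  have h4 : (|S| / N) ^ 2 ≤ (|T| / (H * N) + 2 * δ) ^ 2 :=
    pow_le_pow_left₀ (by positivity) h3 2
  have h5 : (|T| / (H * N)) ^ 2 ≤ V / N / (H : ℝ) ^ 2 := by
    rw [div_pow, sq_abs, div_div, div_le_div_iff₀ (by positivity) (by positivity)]
    have : T ^ 2 * (N * (H : ℝ) ^ 2) ≤ (N * V) * (N * (H : ℝ) ^ 2) :=
      mul_le_mul_of_nonneg_right h2 (by positivity)
    calc T ^ 2 * (N * (H : ℝ) ^ 2) ≤ (N * V) * (N * (H : ℝ) ^ 2) := this
      _ = V * (H * N) ^ 2 := by ring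
  have h6 : (|T| / (H * N) + 2 * δ) ^ 2 ≤ 2 * (|T| / (H * N)) ^ 2 + 2 * (2 * δ) ^ 2 := by
    nlinarith [sq_nonneg (|T| / (H * N) - 2 * δ)]
  have h7 : 2 * (2 * δ) ^ 2 ≤ 8 * δ := by nlinarith
  linarith

theorem sum_cons {k H : ℕ} (f : (Fin (k + 1) → Fin H) → (Fin (k + 1) → Fin H) → ℝ) :
    ∑ h : Fin (k + 1) → Fin H, ∑ h' : Fin (k + 1) → Fin H, f h h' =
      ∑ h0 : Fin H, ∑ h0' : Fin H, ∑ a : Fin k → Fin H, ∑ a' : Fin k → Fin H,
        f (Fin.cons h0 a) (Fin.cons h0' a') := by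
  have key : ∀ F : (Fin (k + 1) → Fin H) → ℝ, ∑ h : Fin (k + 1) → Fin H, F h =
      ∑ h0 : Fin H, ∑ a : Fin k → Fin H, F (Fin.cons h0 a) := by
    intro F
    rw [← (Fin.consEquiv (fun _ : Fin (k + 1) => Fin H)).sum_comp, Fintype.sum_prod_type]
    rfl
  rw [key]
  refine sum_congr rfl fun h0 _ => ?_
  rw [sum_congr rfl fun a _ => key _, sum_comm]

theorem prod_cons {k : ℕ} (f : (Fin (k + 1) → Bool) → ℝ) :
    ∏ ω : Fin (k + 1) → Bool, f ω =
      ∏ ω : Fin k → Bool, (f (Fin.cons true ω) * f (Fin.cons false ω)) := by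
  rw [← (Fin.consEquiv (fun _ : Fin (k + 1) => Bool)).prod_comp, Fintype.prod_prod_type,
    Fintype.prod_bool, ← prod_mul_distrib]
  rfl

theorem sh_cons {k : ℕ} (Q : Fin (k + 1) → ℕ) (a a' : Fin (k + 1) → ℤ) (b : Bool)
    (ω : Fin k → Bool) :
    sh Q a a' (Fin.cons b ω) = (Q 0 : ℤ) * (if b then a 0 else a' 0) +
      sh (fun i => Q i.succ) (fun i => a i.succ) (fun i => a' i.succ) ω := by
  unfold sh
  rw [Fin.sum_univ_succ]
  simp

theorem vdc : S_VDC := by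
  intro k
  induction k with
  | zero =>
    refine ⟨1, le_rfl, ?_⟩
    intro Q w g A N H δ hN hH hδ0 hδ1 hw hg hper hQ
    simp [sh, hδ0]
  | succ k ih =>
    obtain ⟨C, hC, ih⟩ := ih
    have hm : 2 ^ k ≠ 0 := by positivity
    refine ⟨2 ^ 2 ^ k * (8 ^ 2 ^ k + 2 ^ 2 ^ k * C), ?_, ?_⟩
    · have h1 : (1 : ℝ) ≤ 2 ^ 2 ^ k := one_le_pow₀ (by norm_num)
      have h2 : (1 : ℝ) ≤ 8 ^ 2 ^ k := one_le_pow₀ (by norm_num)
      nlinarith [mul_nonneg (by positivity : (0 : ℝ) ≤ 2 ^ 2 ^ k) (by linarith : (0 : ℝ) ≤ C)]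
    intro Q w g A N H δ hN hH hδ0 hδ1 hw hg hper hQ
    have hNR : (0 : ℝ) < N := by exact_mod_cast hN
    have hHR : (0 : ℝ) < H := by exact_mod_cast hH
    set G : ℤ → ℝ := fun x => (∏ i : Fin k, w i.succ x) * g x with hGdef
    have hprod : ∀ x, |∏ i : Fin k, w i.succ x| ≤ 1 := by
      intro x
      rw [abs_prod]
      exact prod_le_one (fun _ _ => abs_nonneg _) (fun _ _ => hw _ _)
    have hG : ∀ n, |G n| ≤ 1 := by
      intro n
      rw [hGdef]
      simp only [abs_mul]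
      exact mul_le_one₀ (hprod n) (abs_nonneg _) (hg n)
    have hstep := step (Q 0) N H hN hH (w 0) G (hw 0) hG (hper 0) A δ (hQ 0) hδ0 hδ1
    have hS : ∑ n ∈ range N, (∏ i, w i (A + n)) * g (A + n) =
        ∑ n ∈ range N, w 0 (A + n) * G (A + n) := by
      refine sum_congr rfl fun n _ => ?_
      rw [Fin.prod_univ_succ, hGdef]
      simp only
      ring
    rw [hS, pow_succ' 2 k, pow_mul]
    set X := (∑ h : Fin H, ∑ h' : Fin H,
        |∑ n ∈ range N, G (A + n + Q 0 * ((h : ℕ) : ℤ)) * G (A + n + Q 0 * ((h' : ℕ) : ℤ))| / N) /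
          (H : ℝ) ^ 2 with hX
    have hX0 : 0 ≤ X := by positivity
    set Z := (∑ h : Fin (k + 1) → Fin H, ∑ h' : Fin (k + 1) → Fin H,
      |∑ n ∈ range N, ∏ ω : Fin (k + 1) → Bool,
        g (A + n + sh Q (fun i => ((h i : ℕ) : ℤ)) (fun i => ((h' i : ℕ) : ℤ)) ω)| / N) /
          (H : ℝ) ^ (2 * (k + 1)) with hZ
    have hZ0 : 0 ≤ Z := by positivity
    -- the mean of the powers
    have hXm : X ^ 2 ^ k ≤ C * (δ + Z) := by
      have h1 : X = ∑ x : Fin H × Fin H, (1 / (H : ℝ) ^ 2) *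
          (|∑ n ∈ range N, G (A + n + Q 0 * ((x.1 : ℕ) : ℤ)) *
            G (A + n + Q 0 * ((x.2 : ℕ) : ℤ))| / N) := by
        rw [hX, ← mul_sum, Fintype.sum_prod_type]
        ring
      rw [h1]
      refine (Real.pow_arith_mean_le_arith_mean_pow univ _ _ (fun _ _ => by positivity) ?_
        (fun _ _ => by positivity) (2 ^ k)).trans ?_
      · rw [sum_const, card_univ, Fintype.card_prod, Fintype.card_fin, nsmul_eq_mul]
        push_cast
        field_simp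
      have h2 : ∀ x : Fin H × Fin H,
          (|∑ n ∈ range N, G (A + n + Q 0 * ((x.1 : ℕ) : ℤ)) *
            G (A + n + Q 0 * ((x.2 : ℕ) : ℤ))| / N) ^ 2 ^ k ≤
          C * (δ + (∑ a : Fin k → Fin H, ∑ a' : Fin k → Fin H,
            |∑ n ∈ range N, ∏ ω : Fin (k + 1) → Bool,
              g (A + n + sh Q (fun i => (((Fin.cons x.1 a : Fin (k + 1) → Fin H) i : ℕ) : ℤ))
                (fun i => (((Fin.cons x.2 a' : Fin (k + 1) → Fin H) i : ℕ) : ℤ)) ω)| / N) /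
              (H : ℝ) ^ (2 * k)) := by
        intro x
        have h3 := ih (fun i => Q i.succ)
          (fun i y => w i.succ (y + Q 0 * ((x.1 : ℕ) : ℤ)) * w i.succ (y + Q 0 * ((x.2 : ℕ) : ℤ)))
          (fun y => g (y + Q 0 * ((x.1 : ℕ) : ℤ)) * g (y + Q 0 * ((x.2 : ℕ) : ℤ)))
          A N H δ hN hH hδ0 hδ1
          (fun i n => by
            rw [abs_mul]
            exact mul_le_one₀ (hw _ _) (abs_nonneg _) (hw _ _))
          (fun n => by
            rw [abs_mul]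
            exact mul_le_one₀ (hg _) (abs_nonneg _) (hg _))
          (fun i n => by
            have e1 := hper i.succ (n + Q 0 * ((x.1 : ℕ) : ℤ))
            have e2 := hper i.succ (n + Q 0 * ((x.2 : ℕ) : ℤ))
            rw [show n + (Q i.succ : ℤ) + Q 0 * ((x.1 : ℕ) : ℤ) =
                n + Q 0 * ((x.1 : ℕ) : ℤ) + Q i.succ by ring, e1,
              show n + (Q i.succ : ℤ) + Q 0 * ((x.2 : ℕ) : ℤ) =
                n + Q 0 * ((x.2 : ℕ) : ℤ) + Q i.succ by ring, e2])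
          (fun i => hQ i.succ)
        have h4 : ∑ n ∈ range N, G (A + n + Q 0 * ((x.1 : ℕ) : ℤ)) *
            G (A + n + Q 0 * ((x.2 : ℕ) : ℤ)) =
            ∑ n ∈ range N, (∏ i : Fin k, (w i.succ (A + n + Q 0 * ((x.1 : ℕ) : ℤ)) *
              w i.succ (A + n + Q 0 * ((x.2 : ℕ) : ℤ)))) *
              (g (A + n + Q 0 * ((x.1 : ℕ) : ℤ)) * g (A + n + Q 0 * ((x.2 : ℕ) : ℤ))) := by
          refine sum_congr rfl fun n _ => ?_
          rw [hGdef, prod_mul_distrib]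
          simp only
          ring
        rw [h4]
        refine h3.trans (le_of_eq ?_)
        congr 3
        refine sum_congr rfl fun a _ => sum_congr rfl fun a' _ => ?_
        congr 2
        refine sum_congr rfl fun n _ => ?_
        rw [prod_cons]
        refine prod_congr rfl fun ω _ => ?_
        rw [sh_cons, sh_cons]
        simp only [Fin.cons_zero, Fin.cons_succ, if_true, Bool.false_eq_true, if_false]
        congr 1 <;> congr 1 <;> ring
      refine (sum_le_sum fun x _ => mul_le_mul_of_nonneg_left (h2 x)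
        (by positivity : (0 : ℝ) ≤ 1 / (H : ℝ) ^ 2)).trans (le_of_eq ?_)
      rw [hZ, sum_cons, ← mul_sum, ← mul_sum, sum_add_distrib, sum_const, card_univ,
        Fintype.card_prod, Fintype.card_fin, nsmul_eq_mul, ← sum_div, Fintype.sum_prod_type]
      have h5 : (H : ℝ) ^ (2 * (k + 1)) = (H : ℝ) ^ (2 * k) * (H : ℝ) ^ 2 := by
        rw [← pow_add]; congr 1
      rw [h5]
      push_cast
      field_simp
    have h1 : ((|∑ n ∈ range N, w 0 (A + n) * G (A + n)| / N) ^ 2) ^ 2 ^ k ≤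
        (8 * δ + 2 * X) ^ 2 ^ k := pow_le_pow_left₀ (by positivity) hstep _
    have h2 : (8 * δ + 2 * X) ^ 2 ^ k ≤ 2 ^ (2 ^ k - 1) * ((8 * δ) ^ 2 ^ k + (2 * X) ^ 2 ^ k) :=
      add_pow_le (by positivity) (by positivity) _
    have h3 : (2 : ℝ) ^ (2 ^ k - 1) ≤ 2 ^ 2 ^ k :=
      pow_le_pow_right₀ (by norm_num) (Nat.sub_le _ _)
    have h4 : δ ^ 2 ^ k ≤ δ := pow_le_of_le_one hδ0 hδ1 hm
    have h5 : (8 * δ) ^ 2 ^ k + (2 * X) ^ 2 ^ k ≤
        8 ^ 2 ^ k * δ + 2 ^ 2 ^ k * (C * (δ + Z)) := by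
      rw [mul_pow, mul_pow]
      exact add_le_add (mul_le_mul_of_nonneg_left h4 (by positivity))
        (mul_le_mul_of_nonneg_left hXm (by positivity))
    have h6 : (0 : ℝ) ≤ (8 * δ) ^ 2 ^ k + (2 * X) ^ 2 ^ k := by positivity
    refine h1.trans (h2.trans ?_)
    refine (mul_le_mul h3 h5 h6 (by positivity)).trans ?_
    have h7 : (8 : ℝ) ^ 2 ^ k * δ ≤ 8 ^ 2 ^ k * (δ + Z) :=
      mul_le_mul_of_nonneg_left (by linarith) (by positivity)
    have h8 : (2 : ℝ) ^ 2 ^ k * (8 ^ 2 ^ k * δ + 2 ^ 2 ^ k * (C * (δ + Z))) ≤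
        2 ^ 2 ^ k * (8 ^ 2 ^ k * (δ + Z) + 2 ^ 2 ^ k * (C * (δ + Z))) :=
      mul_le_mul_of_nonneg_left (by linarith) (by positivity)
    refine h8.trans (le_of_eq ?_)
    ring

end Pool.Agent.TH633.Vdc2
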